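import Mathlib

/-!
The local-global property of strong Maltsev conditions depends on the presentation.
-/

namespace Pool.Agent.Results.MP_b44554_al.PresentationDependent

universe u

/-- Terms over operation symbols indexed by `Fin m` with arities `ar` and variables
`x_0, ..., x_(n-1)`. -/
inductive Term (m : ℕ) (ar : Fin m → ℕ) (n : ℕ) : Type
  | var : Fin n → Term m ar n
  | app : (i : Fin m) → (Fin (ar i) → Term m ar n) → Term m ar n

/-- A strong Maltsev condition: finitely many operation symbols with arities, finitely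
many variables and a finite list of identities. -/
structure MaltsevCond where
  m : ℕ
  ar : Fin m → ℕ
  n : ℕ
  ids : List (Term m ar n × Term m ar n)

/-- An algebra: a carrier with a set of basic operations of each arity. -/
structure Alg : Type (u + 1) where
  carrier : Type u
  ops : (k : ℕ) → Set ((Fin k → carrier) → carrier)

/-- The clone of term operations of an algebra. -/
inductive Clo (A : Alg.{u}) : (k : ℕ) → ((Fin k → A.carrier) → A.carrier) → Prop
  | proj {k : ℕ} (i : Fin k) : Clo A k (fun v => v i)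
  | comp {k l : ℕ} {f : (Fin l → A.carrier) → A.carrier} (hf : f ∈ A.ops l)
      (g : Fin l → ((Fin k → A.carrier) → A.carrier)) (hg : ∀ i, Clo A k (g i)) :
      Clo A k (fun v => f (fun i => g i v))

/-- Value of a term under an interpretation `I` of the symbols and an assignment `v`. -/
def Term.eval {m : ℕ} {ar : Fin m → ℕ} {n : ℕ} {X : Type u}
    (I : (i : Fin m) → (Fin (ar i) → X) → X) (v : Fin n → X) : Term m ar n → X
  | .var j => v j
  | .app i ts => I i (fun j => Term.eval I v (ts j))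

/-- `A` satisfies `S` on `F`: the symbols can be interpreted by term operations of `A` so
that all identities hold for all assignments in `F`. -/
def SatOn (A : Alg.{u}) (S : MaltsevCond) (F : Set (Fin S.n → A.carrier)) : Prop :=
  ∃ I : (i : Fin S.m) → (Fin (S.ar i) → A.carrier) → A.carrier,
    (∀ i, Clo A (S.ar i) (I i)) ∧
      ∀ v ∈ F, ∀ e ∈ S.ids, e.1.eval I v = e.2.eval I v

/-- `A` satisfies `S`. -/
def Sat (A : Alg.{u}) (S : MaltsevCond) : Prop := SatOn A S Set.univ

/-- The `k`-local-global property. -/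
def KLocalGlobal (k : ℕ) (S : MaltsevCond) : Prop :=
  ∀ A : Alg.{u}, (k : Cardinal.{u}) ≤ Cardinal.mk (Fin S.n → A.carrier) →
    (∀ F : Set (Fin S.n → A.carrier), F.encard = k → SatOn A S F) →
    ∀ F : Set (Fin S.n → A.carrier), F.Finite → SatOn A S F

/-- The local-global property. -/
def LocalGlobal (S : MaltsevCond) : Prop := ∃ k : ℕ, 1 ≤ k ∧ KLocalGlobal.{u} k S

/-- The local-global property restricted to finite algebras. -/
def LocalGlobalFin (S : MaltsevCond) : Prop :=
  ∃ k : ℕ, 1 ≤ k ∧ ∀ A : Alg.{u}, Finite A.carrier →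
    (k : Cardinal.{u}) ≤ Cardinal.mk (Fin S.n → A.carrier) →
    (∀ F : Set (Fin S.n → A.carrier), F.encard = k → SatOn A S F) →
    ∀ F : Set (Fin S.n → A.carrier), F.Finite → SatOn A S F

/-- Equivalence of strong Maltsev conditions. -/
def Equivalent (S T : MaltsevCond) : Prop := ∀ A : Alg.{u}, Sat A S ↔ Sat A T

/-- Arity of the symbol `c` of the first condition. -/
def ar1 : Fin 1 → ℕ := fun _ => 1

/-- Term `c(t)` in the first condition. -/
def sc (t : Term 1 ar1 2) : Term 1 ar1 2 := .app 0 (fun _ => t)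

/-- The condition `c(x) = c(y)`. -/
def S1 : MaltsevCond where
  m := 1
  ar := ar1
  n := 2
  ids := [(sc (.var 0), sc (.var 1))]

/-- Arities of the symbols `c, f, u` of the second condition. -/
def ar2 : Fin 3 → ℕ := ![1, 1, 2]

/-- Term `c(t)`. -/
def tc (t : Term 3 ar2 2) : Term 3 ar2 2 := .app 0 (fun _ => t)

/-- Term `f(t)`. -/
def tf (t : Term 3 ar2 2) : Term 3 ar2 2 := .app 1 (fun _ => t)

/-- Term `u(s, t)`. -/
def tu (s t : Term 3 ar2 2) : Term 3 ar2 2 := .app 2 (![s, t] : Fin 2 → Term 3 ar2 2)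

/-- The condition `u(x, f(y)) = c(x)`, `u(f(x), y) = c(y)`. -/
def S2 : MaltsevCond where
  m := 3
  ar := ar2
  n := 2
  ids := [(tu (.var 0) (tf (.var 1)), tc (.var 0)), (tu (tf (.var 0)) (.var 1), tc (.var 1))]

section Clone

variable {A : Alg.{u}}

/-- Closure of the clone under composition. -/
lemma Clo.comp' {k l : ℕ} {f : (Fin l → A.carrier) → A.carrier} (hf : Clo A l f)
    (g : Fin l → ((Fin k → A.carrier) → A.carrier)) (hg : ∀ i, Clo A k (g i)) :
    Clo A k (fun v => f (fun i => g i v)) := by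
  induction hf generalizing k with
  | proj i => exact hg i
  | comp hf h _ ih =>
    exact Clo.comp hf (fun i v => h i (fun j => g j v)) (fun i => ih i g hg)

end Clone

/-- Interpretations of the three symbols. -/
def interp {X : Type u} (c f : X → X) (w : X → X → X) :
    (i : Fin 3) → (Fin (ar2 i) → X) → X :=
  fun i => match i with
    | 0 => fun v : Fin 1 → X => c (v 0)
    | 1 => fun v : Fin 1 → X => f (v 0)
    | 2 => fun v : Fin 2 → X => w (v 0) (v 1)

lemma satOn_S2_of {A : Alg.{u}} {F : Set (Fin 2 → A.carrier)} {c f : A.carrier → A.carrier}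
    {w : A.carrier → A.carrier → A.carrier} (hc : Clo A 1 (fun v => c (v 0)))
    (hf : Clo A 1 (fun v => f (v 0))) (hw : Clo A 2 (fun v => w (v 0) (v 1)))
    (h1 : ∀ v ∈ F, w (v 0) (f (v 1)) = c (v 0)) (h2 : ∀ v ∈ F, w (f (v 0)) (v 1) = c (v 1)) :
    SatOn A S2 F := by
  refine ⟨interp c f w, ?_, ?_⟩
  · change ∀ i : Fin 3, Clo A (ar2 i) (interp c f w i)
    intro i
    match i with
    | 0 => exact hc
    | 1 => exact hf
    | 2 => exact hw
  · intro v hv e he
    have he' : e = (tu (.var 0) (tf (.var 1)), tc (.var 0)) ∨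
      e = (tu (tf (.var 0)) (.var 1), tc (.var 1)) := List.mem_pair.mp he
    rcases he' with rfl | rfl
    · exact h1 v hv
    · exact h2 v hv

lemma of_satOn_S2 {A : Alg.{u}} {F : Set (Fin 2 → A.carrier)} (h : SatOn A S2 F) :
    ∃ (c f : A.carrier → A.carrier) (w : A.carrier → A.carrier → A.carrier),
      Clo A 1 (fun v => c (v 0)) ∧ Clo A 1 (fun v => f (v 0)) ∧
      Clo A 2 (fun v => w (v 0) (v 1)) ∧
      (∀ v ∈ F, w (v 0) (f (v 1)) = c (v 0)) ∧ (∀ v ∈ F, w (f (v 0)) (v 1) = c (v 1)) := by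
  obtain ⟨I, hI, h⟩ := h
  let I0 : (Fin 1 → A.carrier) → A.carrier := I (0 : Fin 3)
  let I1 : (Fin 1 → A.carrier) → A.carrier := I (1 : Fin 3)
  let I2 : (Fin 2 → A.carrier) → A.carrier := I (2 : Fin 3)
  have e0 : (fun v : Fin 1 → A.carrier => I0 (fun _ => v 0)) = I0 := by
    funext v
    congr 1
    funext i
    rw [Subsingleton.elim i 0]
  have e1 : (fun v : Fin 1 → A.carrier => I1 (fun _ => v 0)) = I1 := by
    funext v
    congr 1
    funext i
    rw [Subsingleton.elim i 0]
  have e2 : (fun v : Fin 2 → A.carrier => I2 ![v 0, v 1]) = I2 := by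
    funext v
    congr 1
    funext i
    match i with
    | 0 => rfl
    | 1 => rfl
  refine ⟨fun a => I0 (fun _ => a), fun a => I1 (fun _ => a), fun a b => I2 ![a, b],
    ?_, ?_, ?_, ?_, ?_⟩
  · change Clo A 1 (fun v : Fin 1 → A.carrier => I0 (fun _ => v 0))
    rw [e0]
    exact hI (0 : Fin 3)
  · change Clo A 1 (fun v : Fin 1 → A.carrier => I1 (fun _ => v 0))
    rw [e1]
    exact hI (1 : Fin 3)
  · change Clo A 2 (fun v : Fin 2 → A.carrier => I2 ![v 0, v 1])
    rw [e2]
    exact hI (2 : Fin 3)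
  · intro v hv
    have h1 := h v hv (tu (.var 0) (tf (.var 1)), tc (.var 0))
      (List.mem_pair.mpr (Or.inl rfl))
    have h2 : I2 (fun j => Term.eval I v ((![.var 0, tf (.var 1)] : Fin 2 → Term 3 ar2 2) j)) =
      I0 (fun _ => v 0) := h1
    change I2 ![v 0, I1 (fun _ => v 1)] = I0 (fun _ => v 0)
    rw [← h2]
    congr 1
    funext j
    match j with
    | 0 => rfl
    | 1 => rfl
  · intro v hv
    have h1 := h v hv (tu (tf (.var 0)) (.var 1), tc (.var 1))
      (List.mem_pair.mpr (Or.inr rfl))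
    have h2 : I2 (fun j => Term.eval I v ((![tf (.var 0), .var 1] : Fin 2 → Term 3 ar2 2) j)) =
      I0 (fun _ => v 1) := h1
    change I2 ![I1 (fun _ => v 0), v 1] = I0 (fun _ => v 1)
    rw [← h2]
    congr 1
    funext j
    match j with
    | 0 => rfl
    | 1 => rfl

lemma satOn_S1_of {A : Alg.{u}} {F : Set (Fin 2 → A.carrier)} {c : A.carrier → A.carrier}
    (hc : Clo A 1 (fun v => c (v 0))) (h : ∀ v ∈ F, c (v 0) = c (v 1)) : SatOn A S1 F := by
  refine ⟨fun _ (v : Fin 1 → A.carrier) => c (v 0), fun _ => hc, ?_⟩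
  intro v hv e he
  have he' : e = (sc (.var 0), sc (.var 1)) := List.mem_singleton.mp he
  rw [he']
  exact h v hv

lemma of_satOn_S1 {A : Alg.{u}} {F : Set (Fin 2 → A.carrier)} (h : SatOn A S1 F) :
    ∃ c : A.carrier → A.carrier, Clo A 1 (fun v => c (v 0)) ∧ ∀ v ∈ F, c (v 0) = c (v 1) := by
  obtain ⟨I, hI, h⟩ := h
  let I0 : (Fin 1 → A.carrier) → A.carrier := I (0 : Fin 1)
  have e0 : (fun v : Fin 1 → A.carrier => I0 (fun _ => v 0)) = I0 := by
    funext v
    congr 1
    funext i
    rw [Subsingleton.elim i 0]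
  refine ⟨fun a => I0 (fun _ => a), ?_, ?_⟩
  · change Clo A 1 (fun v : Fin 1 → A.carrier => I0 (fun _ => v 0))
    rw [e0]
    exact hI (0 : Fin 1)
  · intro v hv
    exact h v hv (sc (.var 0), sc (.var 1)) (List.mem_singleton.mpr rfl)

/-- The two conditions are equivalent. -/
lemma equivalent : Equivalent.{u} S1 S2 := by
  intro A
  constructor
  · intro h
    obtain ⟨c, hc, h1⟩ := of_satOn_S1 h
    have hcc : ∀ a b, c a = c b := fun a b => h1 ![a, b] (Set.mem_univ _)
    refine satOn_S2_of (c := c) (f := c) (w := fun a _ => c a) hc hc ?_ ?_ ?_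
    · exact Clo.comp' (f := fun v : Fin 1 → A.carrier => c (v 0)) hc (fun _ v => v 0)
        (fun _ => Clo.proj 0)
    · intro v _
      rfl
    · intro v _
      exact hcc _ _
  · intro h
    obtain ⟨c, f, w, hc, hf, hw, h1, h2⟩ := of_satOn_S2 h
    refine satOn_S1_of (c := fun a => c (f a)) ?_ ?_
    · exact Clo.comp' (f := fun v : Fin 1 → A.carrier => c (v 0)) hc (fun _ v => f (v 0))
        (fun _ => hf)
    · intro v _
      have h3 : w (f (v 0)) (f (v 1)) = c (f (v 0)) := h1 ![f (v 0), v 1] (Set.mem_univ _)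
      have h4 : w (f (v 0)) (f (v 1)) = c (f (v 1)) := h2 ![v 0, f (v 1)] (Set.mem_univ _)
      exact h3.symm.trans h4

/-- The first condition has the local-global property. -/
lemma localGlobal_S1 : LocalGlobal.{u} S1 := by
  refine ⟨1, le_rfl, ?_⟩
  intro A _ hloc
  change ∀ F : Set (Fin 2 → A.carrier), F.Finite → SatOn A S1 F
  intro F hF
  have hloc' : ∀ v : Fin 2 → A.carrier, ∃ c : A.carrier → A.carrier,
      Clo A 1 (fun v => c (v 0)) ∧ c (v 0) = c (v 1) := by
    intro v
    obtain ⟨c, hc, h⟩ := of_satOn_S1 (hloc {v} (Set.encard_singleton v))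
    exact ⟨c, hc, h v rfl⟩
  have key : ∃ c : A.carrier → A.carrier, Clo A 1 (fun v => c (v 0)) ∧
      ∀ v ∈ F, c (v 0) = c (v 1) := by
    induction F, hF using Set.Finite.induction_on with
    | empty => exact ⟨id, Clo.proj 0, by simp⟩
    | @insert v F _ _ ih =>
      obtain ⟨c, hc, h⟩ := ih
      obtain ⟨d, hd, h'⟩ := hloc' ![c (v 0), c (v 1)]
      refine ⟨fun a => d (c a), ?_, ?_⟩
      · exact Clo.comp' (f := fun v : Fin 1 → A.carrier => d (v 0)) hd (fun _ v => c (v 0))
          (fun _ => hc)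
      · intro v' hv'
        rcases hv' with rfl | hv'
        · exact h'
        · change d (c (v' 0)) = d (c (v' 1))
          rw [h v' hv']
  obtain ⟨c, hc, h⟩ := key
  exact satOn_S1_of hc h

/-- The algebra on `Bool × Fin N` of all operations preserving both fibres of the first
projection. -/
def bigAlg (N : ℕ) : Alg.{u} where
  carrier := ULift.{u} (Bool × Fin N)
  ops := fun k => {f | ∀ (b : Bool) (v : Fin k → ULift.{u} (Bool × Fin N)),
    (∀ i, (v i).down.1 = b) → (f v).down.1 = b}

lemma clo_bigAlg {N k : ℕ} {f : (Fin k → ULift.{u} (Bool × Fin N)) → ULift.{u} (Bool × Fin N)} :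
    Clo (bigAlg.{u} N) k f ↔ ∀ (b : Bool) (v : Fin k → ULift.{u} (Bool × Fin N)),
      (∀ i, (v i).down.1 = b) → (f v).down.1 = b := by
  constructor
  · intro h
    have key : ∀ (k : ℕ) (f : (Fin k → (bigAlg.{u} N).carrier) → (bigAlg.{u} N).carrier),
        Clo (bigAlg.{u} N) k f → ∀ (b : Bool) (v : Fin k → ULift.{u} (Bool × Fin N)),
          (∀ i, (v i).down.1 = b) → (f v).down.1 = b := by
      intro k f h
      induction h with
      | proj i => exact fun b v hv => hv i
      | comp hf g _ ih =>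
        intro b v hv
        exact hf b _ (fun i => ih i b v hv)
    exact key k f h
  · intro h
    exact Clo.comp (A := bigAlg.{u} N) (f := f) h (fun i v => v i) (fun i => Clo.proj i)

open Classical in
/-- Local satisfaction of the second condition. -/
lemma satOn_bigAlg {N k : ℕ} (hN : 2 * k < N) (hk : 1 ≤ k)
    (F : Set (Fin 2 → ULift.{u} (Bool × Fin N))) (hF : F.encard = k) :
    SatOn (bigAlg.{u} N) S2 F := by
  have hFfin : F.Finite := Set.finite_of_encard_eq_coe hF
  -- the set of all coordinates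
  let X : Set (ULift.{u} (Bool × Fin N)) := (fun v => v 0) '' F ∪ (fun v => v 1) '' F
  have hXfin : X.Finite := (hFfin.image _).union (hFfin.image _)
  have hXcard : X.ncard ≤ 2 * k := by
    have hFn : F.ncard = k := by
      rw [Set.ncard, hF]
      simp
    calc X.ncard ≤ ((fun v => v 0) '' F).ncard + ((fun v => v 1) '' F).ncard :=
          Set.ncard_union_le _ _
      _ ≤ F.ncard + F.ncard :=
          Nat.add_le_add (Set.ncard_image_le hFfin) (Set.ncard_image_le hFfin)
      _ = 2 * k := by omega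
  have hfree : ∀ b : Bool, ∃ i : Fin N, (⟨(b, i)⟩ : ULift.{u} (Bool × Fin N)) ∉ X := by
    intro b
    by_contra hcon
    push Not at hcon
    have h1 : (Set.range (fun i : Fin N => (⟨(b, i)⟩ : ULift.{u} (Bool × Fin N)))).ncard ≤
        X.ncard := by
      apply Set.ncard_le_ncard _ hXfin
      rintro _ ⟨i, rfl⟩
      exact hcon i
    have h2 : (Set.range (fun i : Fin N => (⟨(b, i)⟩ : ULift.{u} (Bool × Fin N)))).ncard =
        N := by
      rw [← Set.image_univ, Set.ncard_image_of_injective, Set.ncard_univ, Nat.card_fin]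
      intro i j hij
      simpa using hij
    omega
  choose p hp using hfree
  let f : ULift.{u} (Bool × Fin N) → ULift.{u} (Bool × Fin N) :=
    fun a => ⟨(a.down.1, p a.down.1)⟩
  let w : ULift.{u} (Bool × Fin N) → ULift.{u} (Bool × Fin N) → ULift.{u} (Bool × Fin N) :=
    fun a b => if a ∈ X then a else b
  have hfX : ∀ a, f a ∉ X := fun a => hp _
  refine satOn_S2_of (A := bigAlg.{u} N) (c := id) (f := f) (w := w) ?_ ?_ ?_ ?_ ?_
  · exact Clo.proj 0
  · rw [clo_bigAlg]
    intro b v hv
    exact hv 0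
  · rw [clo_bigAlg]
    intro b v hv
    change (if v 0 ∈ X then v 0 else v 1).down.1 = b
    split_ifs
    · exact hv 0
    · exact hv 1
  · intro v hv
    have h1 : v 0 ∈ X := Or.inl ⟨v, hv, rfl⟩
    change (if v 0 ∈ X then v 0 else f (v 1)) = v 0
    rw [if_pos h1]
  · intro v hv
    change (if f (v 0) ∈ X then f (v 0) else v 1) = v 1
    rw [if_neg (hfX _)]

/-- The second condition does not have the local-global property, even for finite
algebras. -/
lemma not_localGlobalFin_S2 : ¬ LocalGlobalFin.{u} S2 := by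
  rintro ⟨k, hk, h⟩
  have h1 := h (bigAlg.{u} (2 * k + 1))
    (inferInstance : Finite (ULift.{u} (Bool × Fin (2 * k + 1)))) ?_
    (fun F hF => satOn_bigAlg (by omega) hk F hF) Set.univ ?_
  · have h2 : Sat (bigAlg.{u} (2 * k + 1)) S1 := (equivalent _).mpr h1
    obtain ⟨c, hc, h3⟩ := of_satOn_S1 h2
    have h4 := (clo_bigAlg.mp hc) false (fun _ => ⟨(false, 0)⟩) (fun _ => rfl)
    have h5 := (clo_bigAlg.mp hc) true (fun _ => ⟨(true, 0)⟩) (fun _ => rfl)
    have h6 : c ⟨(false, 0)⟩ = c ⟨(true, 0)⟩ :=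
      h3 ![⟨(false, 0)⟩, ⟨(true, 0)⟩] (Set.mem_univ _)
    simp only [h6] at h4
    rw [h4] at h5
    exact absurd h5 (by decide)
  · have h2 : Cardinal.mk (Fin 2 → ULift.{u} (Bool × Fin (2 * k + 1))) =
        (((2 * (2 * k + 1)) ^ 2 : ℕ) : Cardinal.{u}) := by
      rw [Cardinal.mk_fintype]
      congr 1
      simp
    change (k : Cardinal.{u}) ≤ Cardinal.mk (Fin 2 → ULift.{u} (Bool × Fin (2 * k + 1)))
    rw [h2, Nat.cast_le]
    nlinarith
  · change (Set.univ : Set (Fin 2 → ULift.{u} (Bool × Fin (2 * k + 1)))).Finite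
    exact Set.finite_univ

/-- A two-element algebra with all operations. -/
def twoAlg : Alg.{u} where
  carrier := ULift.{u} Bool
  ops := fun _ => Set.univ

/-- The strong Maltsev conditions `S1` and `S2` are equivalent, `S1` has the local-global
property, `S2` does not have it (not even for finite algebras), and both are satisfied by a
nontrivial algebra. -/
theorem result : Equivalent.{u} S1 S2 ∧ LocalGlobal.{u} S1 ∧ ¬ LocalGlobal.{u} S2 ∧
    ¬ LocalGlobalFin.{u} S2 ∧
      ∃ A : Alg.{u}, Nontrivial A.carrier ∧ Sat A S1 ∧ Sat A S2 := by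
  refine ⟨equivalent, localGlobal_S1,
    fun ⟨k, hk, h⟩ => not_localGlobalFin_S2 ⟨k, hk, fun A _ => h A⟩,
    not_localGlobalFin_S2, twoAlg,
    (inferInstance : Nontrivial (ULift.{u} Bool)), ?_, ?_⟩
  · exact satOn_S1_of (A := twoAlg) (c := fun _ => ⟨false⟩)
      (Clo.comp (A := twoAlg) (f := fun _ => ⟨false⟩) (Set.mem_univ _) (fun i v => v i)
        (fun i => Clo.proj i)) (fun _ _ => rfl)
  · rw [← equivalent]
    exact satOn_S1_of (A := twoAlg) (c := fun _ => ⟨false⟩)
      (Clo.comp (A := twoAlg) (f := fun _ => ⟨false⟩) (Set.mem_univ _) (fun i v => v i)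
        (fun i => Clo.proj i)) (fun _ _ => rfl)

end Pool.Agent.Results.MP_b44554_al.PresentationDependent
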